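import Pool.Agent.H85.SVInv

namespace Pool.Agent.Results.MP_a283c1_gt.NotSurjective

open Pool.Agent.H85 Pool.Agent.H85.Gauss Pool.Agent.H85.SV

def dg : Diagram := [[(0, true, true), (1, true, true)], [(1, false, true), (2, false, true)],
  [(3, false, true), (0, false, true)], [(2, true, true), (3, true, true)]]

theorem flat_app (D E : Diagram) : flat (D ++ E) = flat D ++ flat E := by simp [flat]

theorem keys_triv (k : ℕ) : keys (flat (List.replicate k [])) = [] := by
  rw [keys, filterMap_flat]; simp

theorem inv_dg (k : ℕ) : SV.inv (flat (dg ++ List.replicate k [])) = 1 := by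
  have e : Ext (flat dg) (flat (dg ++ List.replicate k [])) :=
    ⟨fun g hg => by simp [flat_app, tau_append, hg],
      fun g hg k hk => by simp [flat_app, pos_append, hg, hk]⟩
  have e2 := e.nu_eq (wf_keys (n := 4) (by decide)).1
  have e3 : keys (flat (dg ++ List.replicate k [])) = keys (flat dg) := by
    simp [flat_app, keys_triv]
  rw [SV.inv, e3, ← e2]
  have hn : (keys (flat dg)).Nodup := by decide
  simp only [SV.inv, nu, term, P, List.sum_toFinset _ hn]
  simp [dg, flat, key, ty, tau, fl, F, I, rel, pos, Function.swap]

/-- For every `n ≥ 4` some `n`-strand virtual string link is not equivalent, up to generalized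
Reidemeister moves and self-virtualization, to a monotone diagram. -/
theorem result (n : ℕ) (hn : 4 ≤ n) :
    ∃ D : Diagram, WF n D ∧ ∀ β : Diagram, WF n β → Mono β → ¬ EqvSV n D β := by
  refine ⟨dg ++ List.replicate (n - 4) [], ⟨by simp [dg]; omega, ?_, ?_⟩, fun β hw hm h => ?_⟩
  · simp [dg]
  · simp [dg]
  · have := inv_eqv h
    rw [inv_dg, inv_mono hw hm] at this
    exact absurd this (by decide)

end Pool.Agent.Results.MP_a283c1_gt.NotSurjective
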